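import Mathlib

/-!
Blue and red circles in `ℝ³` (question of Bobenko).  For every `n ≥ 1` there are `n` pairwise
disjoint blue circles and `n` pairwise disjoint red circles such that every variegated pair but one
meets in exactly one point, and the remaining pair meets in exactly two points.  The case `n = 10`
answers the question in the negative.

All the circles have radius one and lie on translates of the surface `{p + q}`, `p`, `q` in two unit
circles in the planes `y = 0` and `x = 0`.  The blue circle `i` lies in the plane `y = i / n`, the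
red circle `j` in the plane `x = j / n`; the two chords cut by the line `x = j / n, y = i / n` share
an end and have signed lengths `2 T i` and `2 A j`, which agree only for `i = j = 0`.
-/

namespace Pool.Agent.Results.MP_00f561_co.LastPairMeetsTwice

/-- Three dimensional Euclidean space. -/
abbrev E3 := EuclideanSpace ℝ (Fin 3)

/-- A round circle of `ℝ³`: the points of a two dimensional affine subspace `Π` at distance `ρ > 0`
from a point `c` of `Π`. -/
def IsCircle (C : Set E3) : Prop :=
  ∃ (P : AffineSubspace ℝ E3) (c : E3) (ρ : ℝ),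
    Module.finrank ℝ P.direction = 2 ∧ c ∈ P ∧ 0 < ρ ∧ C = {x | x ∈ P ∧ dist x c = ρ}

/-- The unit circle with centre `c` in the plane `x_k = c_k`. -/
def circ (k : Fin 3) (c : E3) : Set E3 := {x | x k = c k ∧ dist x c = 1}

theorem isCircle_circ (k : Fin 3) (c : E3) : IsCircle (circ k c) := by
  let f : E3 →ₗ[ℝ] ℝ := (EuclideanSpace.proj k : E3 →L[ℝ] ℝ).toLinearMap
  have hf : ∀ x : E3, f x = x k := fun x => rfl
  have hsurj : Function.Surjective f := by
    intro t
    exact ⟨EuclideanSpace.single k t, by simp [hf]⟩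
  have hrank : Module.finrank ℝ (LinearMap.ker f) = 2 := by
    have h := LinearMap.finrank_range_add_finrank_ker f
    rw [LinearMap.range_eq_top.mpr hsurj] at h
    simp at h
    omega
  refine ⟨AffineSubspace.mk' c (LinearMap.ker f), c, 1, ?_, ?_, one_pos, ?_⟩
  · rw [AffineSubspace.direction_mk']
    exact hrank
  · exact AffineSubspace.self_mem_mk' c _
  · ext x
    simp only [circ, Set.mem_ofPred_eq, AffineSubspace.mem_mk', LinearMap.mem_ker, hf, vsub_eq_sub,
      PiLp.sub_apply, sub_eq_zero]

/-- The coordinate `i / n`. -/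
noncomputable def a (n : ℕ) (i : Fin n) : ℝ := (i : ℝ) / n

/-- The half chord `√(1 - (i/n)²)`. -/
noncomputable def A (n : ℕ) (i : Fin n) : ℝ := √(1 - a n i ^ 2)

/-- The height of the centre of the blue circle `i`. -/
noncomputable def T (n : ℕ) (i : Fin n) : ℝ := if (i : ℕ) = 0 then A n i else - A n i

/-- The blue circles. -/
noncomputable def blue (n : ℕ) (i : Fin n) : Set E3 := circ 1 !₂[0, a n i, T n i]

/-- The red circles. -/
noncomputable def red (n : ℕ) (j : Fin n) : Set E3 := circ 0 !₂[a n j, 0, A n j]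

theorem a_nonneg {n : ℕ} (i : Fin n) : 0 ≤ a n i := by unfold a; positivity

theorem a_lt_one {n : ℕ} (i : Fin n) : a n i < 1 := by
  have hn : (0 : ℝ) < n := by exact_mod_cast (Nat.lt_of_le_of_lt (Nat.zero_le _) i.2)
  unfold a
  rw [div_lt_one hn]
  exact_mod_cast i.2

theorem a_inj {n : ℕ} {i j : Fin n} (h : a n i = a n j) : i = j := by
  have hn : (0 : ℝ) < n := by exact_mod_cast (Nat.lt_of_le_of_lt (Nat.zero_le _) i.2)
  unfold a at h
  rw [div_left_inj' hn.ne'] at h
  exact Fin.ext (by exact_mod_cast h)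

theorem A_sq {n : ℕ} (i : Fin n) : A n i ^ 2 = 1 - a n i ^ 2 := by
  unfold A
  rw [Real.sq_sqrt]
  nlinarith [a_nonneg i, a_lt_one i]

theorem A_pos {n : ℕ} (i : Fin n) : 0 < A n i := by
  unfold A
  apply Real.sqrt_pos.mpr
  nlinarith [a_nonneg i, a_lt_one i]

theorem T_sq {n : ℕ} (i : Fin n) : T n i ^ 2 = A n i ^ 2 := by
  unfold T
  split_ifs <;> ring

theorem mem_blue {n : ℕ} (i : Fin n) (x : E3) :
    x ∈ blue n i ↔ x 1 = a n i ∧ x 0 ^ 2 + (x 2 - T n i) ^ 2 = 1 := by
  unfold blue circ
  simp only [Set.mem_ofPred_eq]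
  rw [EuclideanSpace.dist_eq]
  simp only [Fin.sum_univ_three, Real.dist_eq, sq_abs]
  simp only [Matrix.cons_val_zero, Matrix.cons_val_one, Matrix.cons_val,
    Real.sqrt_eq_one]
  constructor
  · rintro ⟨h1, h2⟩
    refine ⟨h1, ?_⟩
    rw [h1] at h2
    linarith [h2]
  · rintro ⟨h1, h2⟩
    refine ⟨h1, ?_⟩
    rw [h1]
    linarith [h2]

theorem mem_red {n : ℕ} (j : Fin n) (x : E3) :
    x ∈ red n j ↔ x 0 = a n j ∧ x 1 ^ 2 + (x 2 - A n j) ^ 2 = 1 := by
  unfold red circ
  simp only [Set.mem_ofPred_eq]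
  rw [EuclideanSpace.dist_eq]
  simp only [Fin.sum_univ_three, Real.dist_eq, sq_abs]
  simp only [Matrix.cons_val_zero, Matrix.cons_val_one, Matrix.cons_val,
    Real.sqrt_eq_one]
  constructor
  · rintro ⟨h1, h2⟩
    refine ⟨h1, ?_⟩
    rw [h1] at h2
    linarith [h2]
  · rintro ⟨h1, h2⟩
    refine ⟨h1, ?_⟩
    rw [h1]
    linarith [h2]

theorem ext3 {x y : E3} (h0 : x 0 = y 0) (h1 : x 1 = y 1) (h2 : x 2 = y 2) : x = y := by
  ext k
  fin_cases k <;> assumption

theorem mem_inter {n : ℕ} (i j : Fin n) (x : E3) :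
    x ∈ blue n i ∩ red n j ↔
      x = !₂[a n j, a n i, T n i + A n j] ∨ (T n i = A n j ∧ x = !₂[a n j, a n i, 0]) := by
  have hj := A_sq j
  have hi := A_sq i
  have hT := T_sq i
  have hpos := A_pos j
  rw [Set.mem_inter_iff, mem_blue, mem_red]
  constructor
  · rintro ⟨⟨h1, h2⟩, h3, h4⟩
    rw [h3] at h2
    rw [h1] at h4
    have e1 : (x 2 - T n i - A n j) * (x 2 - T n i + A n j) = 0 := by nlinarith
    rcases mul_eq_zero.mp e1 with h | h
    · left
      apply ext3
      · simpa using h3
      · simpa using h1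
      · simp
        linarith
    · have hx : x 2 = T n i - A n j := by linarith
      rw [hx] at h4
      have e2 : A n j * (A n j - T n i) = 0 := by nlinarith
      rcases mul_eq_zero.mp e2 with h' | h'
      · exact absurd h' hpos.ne'
      · right
        refine ⟨by linarith, ?_⟩
        apply ext3
        · simpa using h3
        · simpa using h1
        · simp
          linarith
  · rintro (h | ⟨hTA, h⟩)
    · have x0 : x 0 = a n j := by rw [h]; simp
      have x1 : x 1 = a n i := by rw [h]; simp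
      have x2 : x 2 = T n i + A n j := by rw [h]; simp
      rw [x0, x1, x2]
      exact ⟨⟨rfl, by nlinarith⟩, rfl, by nlinarith⟩
    · have x0 : x 0 = a n j := by rw [h]; simp
      have x1 : x 1 = a n i := by rw [h]; simp
      have x2 : x 2 = 0 := by rw [h]; simp
      rw [x0, x1, x2]
      exact ⟨⟨rfl, by nlinarith⟩, rfl, by nlinarith⟩

theorem T_eq_A {n : ℕ} {i j : Fin n} (h : T n i = A n j) : (i : ℕ) = 0 ∧ i = j := by
  unfold T at h
  split_ifs at h with h0
  · refine ⟨h0, ?_⟩
    have h1 : A n i ^ 2 = A n j ^ 2 := by rw [h]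
    rw [A_sq, A_sq] at h1
    apply a_inj
    have := a_nonneg i
    have := a_nonneg j
    nlinarith [sq_nonneg (a n i - a n j), sq_nonneg (a n i + a n j)]
  · have := A_pos i
    have := A_pos j
    linarith

/-- For every `n ≥ 1` there are `n` blue and `n` red circles in `ℝ³`, circles of the same colour
being disjoint, such that exactly one of the `n²` variegated pairs does not meet in exactly one
point; that pair meets in exactly two points. -/
theorem result : ∀ n : ℕ, 1 ≤ n → ∃ B R : Fin n → Set E3,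
    (∀ i, IsCircle (B i)) ∧ (∀ j, IsCircle (R j)) ∧
    (∀ i j, i ≠ j → Disjoint (B i) (B j)) ∧ (∀ i j, i ≠ j → Disjoint (R i) (R j)) ∧
    ∃ i₀ j₀, (B i₀ ∩ R j₀).ncard = 2 ∧ ∀ i j, (i, j) ≠ (i₀, j₀) → (B i ∩ R j).ncard = 1 := by
  intro n hn
  refine ⟨blue n, red n, fun i => isCircle_circ _ _, fun j => isCircle_circ _ _, ?_, ?_,
    ⟨0, hn⟩, ⟨0, hn⟩, ?_, ?_⟩
  · intro i j hij
    rw [Set.disjoint_left]
    intro x hx hx'
    rw [mem_blue] at hx hx'
    exact hij (a_inj (hx.1.symm.trans hx'.1))
  · intro i j hij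
    rw [Set.disjoint_left]
    intro x hx hx'
    rw [mem_red] at hx hx'
    exact hij (a_inj (hx.1.symm.trans hx'.1))
  · have hT : T n ⟨0, hn⟩ = A n ⟨0, hn⟩ := by unfold T; simp
    have : blue n ⟨0, hn⟩ ∩ red n ⟨0, hn⟩ =
        {!₂[a n ⟨0, hn⟩, a n ⟨0, hn⟩, T n ⟨0, hn⟩ + A n ⟨0, hn⟩],
          !₂[a n ⟨0, hn⟩, a n ⟨0, hn⟩, 0]} := by
      ext x
      rw [mem_inter]
      simp [hT]
    rw [this, Set.ncard_pair]
    intro h
    have h2 := congrArg (fun x : E3 => x 2) h
    simp at h2
    have := A_pos (⟨0, hn⟩ : Fin n)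
    rw [hT] at h2
    linarith
  · intro i j hij
    have : blue n i ∩ red n j = {!₂[a n j, a n i, T n i + A n j]} := by
      ext x
      rw [mem_inter, Set.mem_singleton_iff]
      constructor
      · rintro (h | ⟨h, -⟩)
        · exact h
        · exfalso
          obtain ⟨h0, h1⟩ := T_eq_A h
          subst h1
          exact hij (by simp [Fin.ext_iff, h0])
      · exact Or.inl
    rw [this, Set.ncard_singleton]

end Pool.Agent.Results.MP_00f561_co.LastPairMeetsTwice
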